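import Pool.Agent.R641.PH.Pid
import Pool.Agent.R928.PHL
import Pool.Agent.R928.PHT

/-!
# MP_c108b5_al: epimorphisms of Poisson Hopf algebras are surjective
-/

set_option autoImplicit false

open scoped TensorProduct

namespace Pool.Agent.Results.MP_c108b5_al.EpiSurjective

/-- `br` is a Poisson bracket on the commutative `k`-algebra `A`: a `k`-bilinear Lie bracket which
is a derivation in each variable. -/
structure IsPoissonBracket (k : Type) {A : Type} [Field k] [CommRing A] [Algebra k A]
    (br : A → A → A) : Prop where
  add_left : ∀ a b c : A, br (a + b) c = br a c + br b c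
  add_right : ∀ a b c : A, br a (b + c) = br a b + br a c
  smul_left : ∀ (r : k) (a b : A), br (r • a) b = r • br a b
  smul_right : ∀ (r : k) (a b : A), br a (r • b) = r • br a b
  alt : ∀ a : A, br a a = 0
  jacobi : ∀ a b c : A, br a (br b c) + br b (br c a) + br c (br a b) = 0
  leibniz : ∀ a b c : A, br a (b * c) = br a b * c + b * br a c

/-- `t` is the Poisson bracket on `A ⊗ A` with
`{a ⊗ b, c ⊗ d} = {a, c} ⊗ b d + a c ⊗ {b, d}`, where `{ , } = br` is the bracket of `A`. -/
structure IsTensorBracket (k : Type) {A : Type} [Field k] [CommRing A] [Algebra k A]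
    (br : A → A → A) (t : A ⊗[k] A → A ⊗[k] A → A ⊗[k] A) : Prop where
  poisson : IsPoissonBracket k t
  tmul : ∀ a b c d : A, t (a ⊗ₜ b) (c ⊗ₜ d) = br a c ⊗ₜ (b * d) + (a * c) ⊗ₜ br b d

/-- The commutative Hopf algebra `H` with the bracket `br` is a Poisson Hopf algebra: `br` is a
Poisson bracket, and the comultiplication `H → H ⊗ H` and the counit `H → k` are morphisms of
Poisson algebras, where `H ⊗ H` carries the tensor product bracket and `k` the zero bracket. -/
structure IsPoissonHopf (k : Type) {H : Type} [Field k] [CommRing H] [HopfAlgebra k H]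
    (br : H → H → H) : Prop where
  poisson : IsPoissonBracket k br
  comul : ∃ t : H ⊗[k] H → H ⊗[k] H → H ⊗[k] H, IsTensorBracket k br t ∧
    ∀ a b : H, Coalgebra.comul (R := k) (br a b)
      = t (Coalgebra.comul (R := k) a) (Coalgebra.comul (R := k) b)
  counit : ∀ a b : H, Coalgebra.counit (R := k) (br a b) = 0

/-- The morphism `f : A → B` is an epimorphism of Poisson Hopf algebras: two morphisms `g, h` from
`B` to a Poisson Hopf algebra `C` with `g ∘ f = h ∘ f` are equal.  (Morphisms are the bialgebra
morphisms which preserve the brackets.) -/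
def IsPoissonHopfEpi {k A B : Type} [Field k] [CommRing A] [CommRing B] [HopfAlgebra k A]
    [HopfAlgebra k B] (brB : B → B → B) (f : A →ₐc[k] B) : Prop :=
  ∀ (C : Type) [CommRing C] [HopfAlgebra k C] (brC : C → C → C), IsPoissonHopf k brC →
    ∀ g h : B →ₐc[k] C, (∀ x y : B, g (brB x y) = brC (g x) (g y)) →
      (∀ x y : B, h (brB x y) = brC (h x) (h y)) → (∀ a : A, g (f a) = h (f a)) → g = h

open R641.PH

/-- The bundled bracket. -/
def toPoisson {k A : Type} [Field k] [CommRing A] [Algebra k A] {br : A → A → A}
    (h : IsPoissonBracket k br) : Poisson k A where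
  br := LinearMap.mk₂ k br h.add_left h.smul_left h.add_right h.smul_right
  alt := h.alt
  jacobi := h.jacobi
  leibniz := h.leibniz

theorem of_poisson {k A : Type} [Field k] [CommRing A] [Algebra k A] (p : Poisson k A) :
    IsPoissonBracket k (fun a b => p.br a b) where
  add_left a b c := by rw [map_add, LinearMap.add_apply]
  add_right a b c := by rw [map_add]
  smul_left r a b := by rw [map_smul, LinearMap.smul_apply]
  smul_right r a b := by rw [map_smul]
  alt := p.alt
  jacobi := p.jacobi
  leibniz := p.leibniz

theorem isPH_of {k H : Type} [Field k] [CommRing H] [HopfAlgebra k H] {br : H → H → H}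
    (h : IsPoissonHopf k br) : (toPoisson h.poisson).IsPH := by
  obtain ⟨t, ht, htc⟩ := h.comul
  refine ⟨fun x y => ?_, fun x y => h.counit x y⟩
  have key : ∀ X Y : H ⊗[k] H, t X Y =
      Poisson.tbr (toPoisson h.poisson) (toPoisson h.poisson) X Y := by
    have h0 : ∀ Y, t 0 Y = 0 := fun Y => by
      have := ht.poisson.smul_left 0 0 Y
      rwa [zero_smul, zero_smul] at this
    have h0' : ∀ X, t X 0 = 0 := fun X => by
      have := ht.poisson.smul_right 0 X 0
      rwa [zero_smul, zero_smul] at this
    intro X Y
    induction X with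
    | zero => rw [h0, map_zero, LinearMap.zero_apply]
    | add X₁ X₂ h₁ h₂ => rw [ht.poisson.add_left, h₁, h₂, map_add, LinearMap.add_apply]
    | tmul a b =>
      induction Y with
      | zero => rw [h0', map_zero]
      | add X₁ X₂ h₁ h₂ => rw [ht.poisson.add_right, h₁, h₂, map_add]
      | tmul c d =>
        rw [ht.tmul, Poisson.tbr_tmul]
        rfl
  exact (htc x y).trans (key _ _)

theorem of_isPH {k H : Type} [Field k] [CommRing H] [HopfAlgebra k H] {p : Poisson k H}
    (h : p.IsPH) : IsPoissonHopf k (fun a b => p.br a b) where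
  poisson := of_poisson p
  comul := ⟨fun X Y => Poisson.tbr p p X Y,
    ⟨of_poisson (p.tensor p), fun a b c d => Poisson.tbr_tmul p p a c b d⟩, h.comul_br⟩
  counit := h.counit_br

/-- Over every field `k`, a morphism of Poisson Hopf algebras over `k` is an epimorphism in the
category of Poisson Hopf algebras if and only if it is surjective. -/
theorem result (k A B : Type) [Field k] [CommRing A] [CommRing B] [HopfAlgebra k A]
    [HopfAlgebra k B] (brA : A → A → A) (brB : B → B → B) (hA : IsPoissonHopf k brA)
    (hB : IsPoissonHopf k brB) (f : A →ₐc[k] B)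
    (hf : ∀ x y : A, f (brA x y) = brB (f x) (f y)) :
    IsPoissonHopfEpi brB f ↔ Function.Surjective f := by
  constructor
  · intro hepi
    have hpA := isPH_of hA
    have hpB := isPH_of hB
    have hc : Poisson.Push.inl (toPoisson hB.poisson) (f : A →ₐ[k] B) =
        Poisson.Push.inr (toPoisson hB.poisson) (f : A →ₐ[k] B) := by
      let _ := Poisson.phopf hpB f
      have h1 := hepi (Poisson.Push (toPoisson hB.poisson) (f : A →ₐ[k] B)) _
        (of_isPH (Poisson.phopf_isPH hpB f)) (Poisson.inlB hpB f) (Poisson.inrB hpB f)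
        (fun x y => Poisson.Push.isP_inl _ _ x y) (fun x y => Poisson.Push.isP_inr x y)
        (fun a => DFunLike.congr_fun (Poisson.Push.inl_comp (q := toPoisson hB.poisson)
          (f := (f : A →ₐ[k] B))) a)
      ext b
      exact DFunLike.congr_fun h1 b
    exact R928.PHT.t_T k A B f fun b hb => Poisson.aug_le R928.PHL.t_L (toPoisson hA.poisson)
      (toPoisson hB.poisson) hpA hpB f hf hc b hb
  · intro hs C _ _ brC _ g h _ _ hgh
    ext b
    obtain ⟨a, rfl⟩ := hs b
    exact hgh a

end Pool.Agent.Results.MP_c108b5_al.EpiSurjective
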